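import Pool.Agent.MP_ed9623_an.H77.SpecZ
import Pool.Agent.MP_ed9623_an.H64.NA4

/-! In the zone, the boundary is analytic or the solution vanishes. -/

open MeasureTheory Filter Topology Set
open scoped ContDiff

namespace Pool.Agent.MP_ed9623_an.H77

open H64

namespace Tail

theorem jetH {r : ST → ℝ} {z : ST} (hr : ∀ k : ℕ, ContDiff ℝ k r) (ht : pd e0 r = 0) (h0 : r z = 0)
    (hk : curv r z ≠ 0) {w1 w2 : ST → ℝ} (sw1 : SmAt r z w1) (sw2 : SmAt r z w2)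
    (cw1 : ContDiff ℝ (3 : ℕ) w1) (cw2 : ContDiff ℝ (3 : ℕ) w2)
    (hS : ∀ᶠ y in 𝓝[{y | r y < 0}] z, Lh w1 y = 0 ∧ Lh w2 y = 0 ∧ pd e1 w1 y + pd e2 w2 y = 0 ∧
      pd e0 (w1 * pd e1 (vort w1 w2) + w2 * pd e2 (vort w1 w2)) y = 0)
    (hB : ∀ y, r y = 0 → w1 y = 0 ∧ w2 y = 0) (hω : vort w1 w2 z ≠ 0) :
    ∃ L, Tendsto (fun y => (w1 * pd e1 (vort w1 w2) + w2 * pd e2 (vort w1 w2)) y / r y ^ 6)
      (𝓝[{y | r y < 0}] z) (𝓝 L) ∧
      180 * GS r z ^ 6 * L = (vort w1 w2 z * pd e0 (pd e0 (vort w1 w2)) z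
        - pd e0 (vort w1 w2) z ^ 2) * kapS r z := by
  have hd := fderiv_ne_of_curv hk
  have : (𝓝[{y | r y < 0}] z).NeBot := mem_closure_iff_nhdsWithin_neBot.1 (mem_closure_neg h0 hd)
  have cr := (hr 0).continuous
  let X := gDR hr h0 ht
  have x0 : ∀ f hf, X.d0 (gm f hf) = gm (pd e0 f) (hf.pd cr _) := fun _ _ => rfl
  have x1 : ∀ f hf, X.d1 (gm f hf) = gm (pd e1 f) (hf.pd cr _) := fun _ _ => rfl
  have x2 : ∀ f hf, X.d2 (gm f hf) = gm (pd e2 f) (hf.pd cr _) := fun _ _ => rfl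
  have xρ : X.ρ = gm r (SmAt.of_cd hr) := rfl
  have xe : ∀ f hf, Continuous f → X.ev (gm f hf) = f z := fun f hf hc =>
    gev_gm hf hc.continuousAt
  have sm : ∀ {f : ST → ℝ} e, (∀ k : ℕ, ContDiff ℝ k f) → ∀ k : ℕ, ContDiff ℝ k (pd e f) :=
    fun e h k => contDiff_pd e (h (k + 1))
  have sG : ∀ k : ℕ, ContDiff ℝ k (GS r) := fun k =>
    ((sm e1 hr k).mul (sm e1 hr k)).add ((sm e2 hr k).mul (sm e2 hr k))
  have sE : ∀ k : ℕ, ContDiff ℝ k (curv r) := fun k =>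
    (((sm e1 (sm e1 hr) k).mul ((sm e2 hr k).pow 2)).sub (((contDiff_const.mul
      (sm e1 (sm e2 hr) k)).mul (sm e1 hr k)).mul (sm e2 hr k))).add
        ((sm e2 (sm e2 hr) k).mul ((sm e1 hr k).pow 2))
  have xG : X.G = gm (GS r) (SmAt.of_cd sG) := rfl
  have xE : X.e = gm (curv r) (SmAt.of_cd sE) := by
    have t : (2 : GR r z) = gm 2 (SmAt.of_cd fun _ => contDiff_const) := rfl
    simp only [DR.e, xρ, x1, x2, t, gm_mul, gm_sub, gm_add]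
    refine gm_eq.2 (Eventually.of_forall fun y => ?_)
    simp only [curv, Pi.add_apply, Pi.sub_apply, Pi.mul_apply, Pi.ofNat_apply]; ring
  have sω : SmAt r z (vort w1 w2) := (sw2.pd cr _).sub (sw1.pd cr _)
  have xc : X.curl (gm w1 sw1) (gm w2 sw2) = gm (vort w1 w2) sω := rfl
  have cω := cd_vort (n := 2) cw1 cw2
  have cω1 := contDiff_pd (n := 1) e0 cω
  have cω2 := contDiff_pd (n := 0) e0 cω1
  obtain ⟨G6, k1, k2⟩ := X.heat_jet
    (gm_dvd hr h0 hd sw1 cw1.continuous (Eventually.of_forall fun y hy => (hB y hy).1))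
    (gm_dvd hr h0 hd sw2 cw2.continuous (Eventually.of_forall fun y hy => (hB y hy).2))
    (by simp only [x1, x2, gm_add]; exact gm_zero.2 (hS.mono fun y hy => hy.2.2.1))
    (by simp only [DR.lap, x0, x1, x2, gm_add]
        exact gm_eq.2 (hS.mono fun y hy => (sub_eq_zero.1 hy.1).symm))
    (by simp only [DR.lap, x0, x1, x2, gm_add]
        exact gm_eq.2 (hS.mono fun y hy => (sub_eq_zero.1 hy.2.1).symm))
    (by rw [xc]
        simp only [x0, x1, x2, gm_add, gm_mul]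
        exact gm_zero.2 (hS.mono fun y hy => hy.2.2.2))
    (by
      rw [xG, xe _ _ (sG 0).continuous]
      intro h
      simp only [GS, Pi.add_apply, Pi.mul_apply] at h
      have a1 : pd e1 r z = 0 := by
        nlinarith [mul_self_nonneg (pd e1 r z), mul_self_nonneg (pd e2 r z)]
      have a2 : pd e2 r z = 0 := by
        nlinarith [mul_self_nonneg (pd e1 r z), mul_self_nonneg (pd e2 r z)]
      apply hk
      unfold curv
      rw [a1, a2]; ring)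
    (by rwa [xc, xe _ _ cω.continuous])
  obtain ⟨f, hf, rfl⟩ := gm_sj G6
  refine ⟨X.ev (gm f hf), (gm_tend hf).congr' ?_, ?_⟩
  · rw [xc, x1, x2, gm_mul, gm_mul, gm_add, xρ, gm_pow, gm_mul, gm_eq] at k1
    filter_upwards [k1, self_mem_nhdsWithin] with y h1 h2
    rw [h1, Pi.mul_apply, Pi.pow_apply, mul_div_cancel_left₀ _ (pow_ne_zero _ (ne_of_lt h2))]
  · rw [xc, x0, x0, xe _ _ cω.continuous, xe _ _ cω1.continuous, xe _ _ cω2.continuous, DR.kap,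
      DR.T_apply, DR.T_apply, xG, xE, xρ] at k2
    simp only [x1, x2, map_mul, map_sub, map_add, map_neg, map_ofNat, xe _ _ (sG 0).continuous,
      xe _ _ (sE 0).continuous, xe _ _ (sm _ hr 0).continuous, xe _ _ (sm _ sG 0).continuous,
      xe _ _ (sm _ sE 0).continuous] at k2
    exact k2

theorem arc_loc {ρ : P → ℝ} {x₀ : P} (hρ : ContDiffAt ℝ (1 : ℕ) ρ x₀) (h0 : ρ x₀ = 0)
    (hd : fderiv ℝ ρ x₀ ≠ 0) {U : Set P} (hU : U ∈ 𝓝 x₀) :
    ∀ᶠ x in 𝓝 x₀, ρ x = 0 → ∀ f : P → ℝ, Differentiable ℝ f →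
      (∀ y ∈ U, ρ y = 0 → fderiv ℝ f y = 0) → f x = f x₀ := by
  classical
  have e : (fun y => if y ∈ U then ρ y else 1) =ᶠ[𝓝 x₀] ρ :=
    mem_of_superset hU fun y hy => if_pos hy
  filter_upwards [arc_const (hρ.congr_of_eventuallyEq e) (e.eq_of_nhds.trans h0)
    (by rwa [e.fderiv_eq]), e] with x a b hx f hf h
  refine a (b.trans hx) f hf fun y hy => ?_
  split_ifs at hy with k
  exacts [h y k hy, absurd hy one_ne_zero]

theorem time_loc {F G : ST → ℝ} (hF : ContDiff ℝ (1 : ℕ) F) (hG : ContDiff ℝ (1 : ℕ) G) {x x' : P}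
    {I : Set ℝ} (hI : IsOpen I) (h : ∀ s ∈ I, F (s, x) = G (s, x')) :
    ∀ s ∈ I, pd e0 F (s, x) = pd e0 G (s, x') := fun s hs =>
  (hasDerivAt_time hF x s).unique
    ((hasDerivAt_time hG x' s).congr_of_eventuallyEq (mem_of_superset (hI.mem_nhds hs) h))

theorem gradV {ρ : P → ℝ} (hρ : Continuous ρ) {w1 w2 : ST → ℝ} (hw1 : ContDiff ℝ (3 : ℕ) w1)
    (hw2 : ContDiff ℝ (3 : ℕ) w2) (hB : ∀ y : ST, ρ y.2 = 0 → w1 y = 0 ∧ w2 y = 0) {t : ℝ} {y : P}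
    (hy : ρ y = 0) (hd : fderiv ℝ ρ y ≠ 0) (hS : ∀ᶠ z : ST in 𝓝 (t, y), ρ z.2 < 0 →
      Lh w1 z = 0 ∧ Lh w2 z = 0 ∧ pd e1 w1 z + pd e2 w2 z = 0) :
    fderiv ℝ (fun x => vort w1 w2 (t, x)) y = 0 := by
  have l1 := fun {f : ST → ℝ} (h : ContDiff ℝ (3 : ℕ) f) => cdg_le h (by norm_num : 1 ≤ 3)
  have l2 := fun {f : ST → ℝ} (h : ContDiff ℝ (3 : ℕ) f) => cdg_le h (by norm_num : 2 ≤ 3)
  have cω := cd_vort (n := 2) hw1 hw2
  have ca := fun {f : ST → ℝ} (h : ContDiff ℝ (2 : ℕ) f) e => (contDiff_pd (n := 1) e h).continuous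
  have cl : ∀ f : ST → ℝ, Continuous f → (∀ z : ST, (∀ᶠ v in 𝓝 z, Lh w1 v = 0 ∧ Lh w2 v = 0 ∧
      pd e1 w1 v + pd e2 w2 v = 0) → f z = 0) → f (t, y) = 0 := fun f hf hz =>
    eq_zero_of_closure (f := fun x => f (t, x)) (hf.comp (Continuous.prodMk_right t)).continuousAt
      (mem_closure_neg hy hd) (((Continuous.prodMk_right t).continuousAt.eventually
        hS.eventually_nhds).mono fun x a b => hz _ (by
          filter_upwards [a, (isOpen_lt (hρ.comp continuous_snd) continuous_const).mem_nhds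
            (show ρ ((t, x) : ST).2 < 0 from b)] with v c d using c d))
  have p3 := cl _ ((ca cω e1).sub (ca (l2 hw2) e0)) fun z hz => by
    have a := hz.self_of_nhds.2.1
    unfold Lh at a
    rw [Pi.sub_apply, (vort_pd (l2 hw1) (l2 hw2) (hz.mono fun _ h => h.2.2)).1, a]
  have p4 := cl _ ((ca cω e2).add (ca (l2 hw1) e0)) fun z hz => by
    have a := hz.self_of_nhds.1
    unfold Lh at a
    rw [Pi.add_apply, (vort_pd (l2 hw1) (l2 hw2) (hz.mono fun _ h => h.2.2)).2]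
    linarith
  have p5 := pd_time_zero (l1 hw1) (fun y hy => (hB y hy).1) (z := (t, y)) hy
  have p6 := pd_time_zero (l1 hw2) (fun y hy => (hB y hy).2) (z := (t, y)) hy
  simp only [Pi.add_apply, Pi.sub_apply, p5, p6, add_zero, sub_zero] at p3 p4
  refine fderiv_zero_of_pd fun e => ?_
  rw [pd_dir2, pd_slice (cdg_diff cω one_le_two _), pd_slice (cdg_diff cω one_le_two _), p3, p4]
  ring

end Tail

open Tail in
theorem rowTail : OfTail := by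
  intro ρ x₀ t₀ ε W hρ' h0 hk' ε0 Z
  have hρ : ∀ k : ℕ, ContDiff ℝ k ρ := fun k => hρ'.of_le (by exact_mod_cast le_top)
  have hk : 0 < curv2 ρ x₀ := by
    by_contra h
    exact hk'.not_ge (div_nonpos_of_nonpos_of_nonneg (not_lt.1 h) (by positivity))
  have cW1 := Z.c6 0
  have cW2 := Z.c6 1
  have bW : ∀ y : ST, ρ y.2 = 0 → W 0 y = 0 ∧ W 1 y = 0 := fun y hy => ⟨Z.bd 0 y hy, Z.bd 1 y hy⟩
  have l3 := fun {f : ST → ℝ} (h : ContDiff ℝ (6 : ℕ) f) => cdg_le h (by norm_num : 3 ≤ 6)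
  have l1 := fun {f : ST → ℝ} (h : ContDiff ℝ (6 : ℕ) f) => cdg_le h (by norm_num : 1 ≤ 6)
  have cω := cd_vort (n := 3) (cdg_le cW1 (by norm_num)) (cdg_le cW2 (by norm_num))
  have cω1 := cdg_le cω (by norm_num : 1 ≤ 3)
  have cω2 := contDiff_pd (n := 2) e0 cω
  have hc := (curv2_cont (hρ 2)).continuousAt.eventually_ne hk.ne'
  obtain ⟨δ, δ0, hδ⟩ := Metric.eventually_nhds_iff_ball.1 ((hc.and (Metric.ball_mem_nhds x₀ ε0)).and
    (arc_loc (hρ 1).contDiffAt h0 (fderiv_ne_of_curv2 hk.ne')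
      (hc.and (Metric.ball_mem_nhds x₀ ε0))))
  have n0 := Metric.mem_ball_self (x := x₀) δ0
  have ev : ∀ y : ST, y.1 ∈ Metric.ball t₀ ε → y.2 ∈ Metric.ball x₀ ε → ∀ᶠ z : ST in 𝓝 y,
      ρ z.2 < 0 → Lh (W 0) z = 0 ∧ Lh (W 1) z = 0 ∧ pd e1 (W 0) z + pd e2 (W 1) z = 0 ∧
        pd e0 (cv W) z = 0 := fun y a b => mem_of_superset
    ((Metric.isOpen_ball.prod Metric.isOpen_ball).mem_nhds ⟨a, b⟩) fun z hz => Z.eq z hz.1 hz.2
  have ev' := fun y a b => (ev y a b).mono fun z h k => (⟨(h k).1, (h k).2.1, (h k).2.2.1⟩ :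
    Lh (W 0) z = 0 ∧ Lh (W 1) z = 0 ∧ pd e1 (W 0) z + pd e2 (W 1) z = 0)
  have ar : ∀ x ∈ Metric.ball x₀ δ, ρ x = 0 → ∀ s ∈ Metric.ball t₀ ε,
      vort (W 0) (W 1) (s, x) = vort (W 0) (W 1) (s, x₀) := fun x hx hx' s hs =>
    (hδ x hx).2 hx' _ (fun x => cdg_diff (cω1.comp
      (by fun_prop : ContDiff ℝ (1 : ℕ) fun x : ℝ × ℝ => ((s, x) : ST))) le_rfl x) fun y a b =>
        gradV (hρ 0).continuous (l3 cW1) (l3 cW2) bW b (fderiv_ne_of_curv2 a.1) (ev' (s, y) hs a.2)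
  have tr : ∀ x ∈ Metric.ball x₀ δ, ρ x = 0 → ∀ s ∈ Metric.ball t₀ ε,
      pd e0 (vort (W 0) (W 1)) (s, x) = pd e0 (vort (W 0) (W 1)) (s, x₀) ∧
        pd e0 (pd e0 (vort (W 0) (W 1))) (s, x) = pd e0 (pd e0 (vort (W 0) (W 1))) (s, x₀) :=
    fun x a b s hs => ⟨time_loc cω1 cω1 Metric.isOpen_ball (ar x a b) s hs,
      time_loc (cdg_le cω2 one_le_two) (cdg_le cω2 one_le_two) Metric.isOpen_ball
        (time_loc cω1 cω1 Metric.isOpen_ball (ar x a b)) s hs⟩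
  have uc : ∀ (J : Set ℝ) (a b c : ℝ), IsOpen J → J ⊆ Metric.ball t₀ ε →
      (∀ s ∈ J, a * pd e0 (pd e0 (vort (W 0) (W 1))) (s, x₀)
        + b * pd e0 (vort (W 0) (W 1)) (s, x₀) + c * vort (W 0) (W 1) (s, x₀) = 0) → ∀ s ∈ J,
      ∀ x ∈ Metric.ball x₀ δ, ρ x < 0 → Tm a b c (W 0) (s, x) = 0 ∧ Tm a b c (W 1) (s, x) = 0 :=
    fun J a b c hJ sJ k s hs x hx => vec_uc hρ h0 (fderiv_ne_of_curv2 hk.ne') δ0 hJ cW1 cW2
      (fun y j1 j2 => (ev' y (sJ j1) (hδ _ j2).1.2).self_of_nhds) bW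
      (fun y j1 j2 j3 => ⟨(hδ _ j2).1.1, by
        unfold Tm
        rw [(tr y.2 j2 j3 y.1 (sJ j1)).1, (tr y.2 j2 j3 y.1 (sJ j1)).2, ar y.2 j2 j3 y.1 (sJ j1)]
        exact k _ j1⟩) (s, x) hs hx
  by_cases hz : ∀ s ∈ Metric.ball t₀ ε, vort (W 0) (W 1) (s, x₀) = 0
  · refine Or.inr ⟨δ, δ0, fun y a b c j => ?_⟩
    have := uc _ 0 0 1 Metric.isOpen_ball subset_rfl (fun s hs => by simp [hz s hs]) y.1 a y.2 b c
    simp only [Tm, zero_mul, one_mul, zero_add] at this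
    fin_cases j
    exacts [this.1, this.2]
  push Not at hz
  obtain ⟨t₁, ht₁, hne⟩ := hz
  obtain ⟨τ, φ, f1, f2, f3, f4, f5, f6, f7, f8⟩ := geo hρ h0 hk
  refine Or.inl (f8 ?_)
  by_cases hκ : ∀ᶠ x in 𝓝 x₀, ρ x = 0 → kap2 ρ x = 0
  · exact f7 hκ
  have hr : ∀ k : ℕ, ContDiff ℝ k fun y : ST => ρ y.2 := fun k => (hρ k).comp contDiff_snd
  have t0 : pd e0 (fun y : ST => ρ y.2) = 0 := by
    rw [pd_snd_fun (hρ 1)]; funext z; simp [pd, Prod.mk_zero_zero]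
  have ct : Continuous fun s : ℝ => vort (W 0) (W 1) (s, x₀) := cω.continuous.comp (by fun_prop)
  obtain ⟨η, η0, hη⟩ := Metric.eventually_nhds_iff_ball.1
    ((ct.continuousAt.eventually_ne hne).and (Metric.isOpen_ball.mem_nhds ht₁))
  have m0 := Metric.mem_ball_self (x := t₁) η0
  obtain ⟨x₁, k1, k2⟩ := ((not_eventually.1 hκ).and_eventually (Metric.ball_mem_nhds x₀ δ0)).exists
  obtain ⟨k3, k4⟩ := Classical.not_imp.1 k1
  have := mem_closure_iff_nhdsWithin_neBot.1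
    (mem_closure_neg k3 (fderiv_ne_of_curv2 (hδ x₁ k2).1.1))
  have cc : ContDiff ℝ (1 : ℕ) (cv W) :=
    ((l1 cW1).mul (cdg_le (contDiff_pd (n := 2) e1 cω) one_le_two)).add
      ((l1 cW2).mul (cdg_le (contDiff_pd (n := 2) e2 cω) one_le_two))
  have cs : ∀ x ∈ Metric.ball x₀ ε, ρ x < 0 → ∀ s ∈ Metric.ball t₀ ε,
      cv W (s, x) = cv W (t₁, x) := fun x a b s hs => by
    have := (convex_ball t₀ ε).norm_image_sub_le_of_norm_hasDerivWithin_le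
      (f := fun s => cv W (s, x)) (f' := fun _ => 0) (C := 0) (fun u hu =>
        ((hasDerivAt_time cc x u).congr_deriv (Z.eq (u, x) hu a b).2.2.2).hasDerivWithinAt)
      (fun _ _ => by simp) ht₁ hs
    exact sub_eq_zero.1 (by simpa using this)
  have jet : ∀ s ∈ Metric.ball t₁ η, ∃ L, Tendsto (fun x => cv W (t₁, x) / ρ x ^ 6)
      (𝓝[{x | ρ x < 0}] x₁) (𝓝 L) ∧
        vort (W 0) (W 1) (s, x₀) * pd e0 (pd e0 (vort (W 0) (W 1))) (s, x₀)
          - pd e0 (vort (W 0) (W 1)) (s, x₀) ^ 2 = 180 * gsq ρ x₁ ^ 6 * L / kap2 ρ x₁ :=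
    fun s hs => by
    have s1 := (hη s hs).2
    have s2 := (hδ x₁ k2).1.2
    obtain ⟨L, j1, j2⟩ := jetH (z := (s, x₁)) hr t0 k3
      (by rw [curv_snd (hρ 2)]; exact (hδ x₁ k2).1.1) (Z.sm 0 _ s1 s2) (Z.sm 1 _ s1 s2)
      (l3 cW1) (l3 cW2) (eventually_nhdsWithin_iff.2 (ev _ s1 s2)) bW
      (by rw [ar x₁ k2 k3 s s1]; exact (hη s hs).1)
    have tt : Tendsto (fun x : ℝ × ℝ => ((s, x) : ST)) (𝓝[{x | ρ x < 0}] x₁)
        (𝓝[{y : ST | ρ y.2 < 0}] (s, x₁)) :=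
      (Continuous.continuousWithinAt (by fun_prop)).tendsto_nhdsWithin fun x hx => hx
    refine ⟨L, (j1.comp tt).congr' ?_, ?_⟩
    · filter_upwards [self_mem_nhdsWithin,
        mem_nhdsWithin_of_mem_nhds (Metric.isOpen_ball.mem_nhds s2)] with x a b
      rw [← cs x b a s s1]
      rfl
    · obtain ⟨j3, j4⟩ := tr x₁ k2 k3 s s1
      rw [kapS_snd hρ, j3, j4, ar x₁ k2 k3 s s1] at j2
      rw [eq_div_iff k4, ← j2]
      simp only [GS, gsq, pd_snd_fun (hρ 1), Pi.add_apply, Pi.mul_apply, sq]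
  obtain ⟨L, jL, -⟩ := jet t₁ m0
  obtain ⟨μ, hμ⟩ := ode2 (fun s => hasDerivAt_time cω1 x₀ s)
    (fun s => hasDerivAt_time (cdg_le cω2 one_le_two) x₀ s)
    (fun s => hasDerivAt_time (contDiff_pd e0 cω2) x₀ s) (t := t₁) (δ := η) fun s hs => by
      obtain ⟨L', j1, j2⟩ := jet s hs
      exact ⟨(hη s hs).1, tendsto_nhds_unique j1 jL ▸ j2⟩
  have fin : ∀ s ∈ Metric.ball t₁ η, ∀ p q σ : ℂ, p * pd e0 (vort (W 0) (W 1)) (s, x₀)
      + q * vort (W 0) (W 1) (s, x₀) ≠ 0 → ∀ a b c : ℝ, (∀ s ∈ Metric.ball t₁ η,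
        a * pd e0 (pd e0 (vort (W 0) (W 1))) (s, x₀) + b * pd e0 (vort (W 0) (W 1)) (s, x₀)
        + c * vort (W 0) (W 1) (s, x₀) = 0) → p = a → q - σ * p = b → -σ * q = c →
      AnalyticAt ℝ φ 0 := by
    intro s hs p q σ hk a b c k j1 j2 j3
    have s1 := (hη s hs).2
    refine helm (x₀ := x₀) (hρ 0).continuous f1 f2 f3 f4 f5 f6 (l3 cW1) (l3 cW2) (p := p) (q := q)
      (σ := σ) hk (ev' (s, x₀) s1 (Metric.mem_ball_self ε0)) bW (mem_of_superset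
        (Metric.ball_mem_nhds x₀ δ0) fun x hx => ⟨fun n => ?_, fun n => by
          rw [(tr x hx n s s1).1, ar x hx n s s1]⟩)
    obtain ⟨u1, u2⟩ := uc _ a b c Metric.isOpen_ball (fun s hs => (hη s hs).2) k s hs x hx n
    have u3 := congrArg Complex.ofReal u1
    have u4 := congrArg Complex.ofReal u2
    unfold Tm at u3 u4
    push_cast at u3 u4
    rw [← j1, ← j2, ← j3] at u3 u4
    exact ⟨by linear_combination u3, by linear_combination u4⟩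
  by_cases hA : ∀ s ∈ Metric.ball t₁ η, pd e0 (vort (W 0) (W 1)) (s, x₀) = 0
  · exact fin t₁ m0 0 1 0 (by simpa using hne) 0 1 0 (fun s hs => by simp [hA s hs]) (by simp)
      (by simp) (by simp)
  push Not at hA
  obtain ⟨s, hs, hA⟩ := hA
  obtain ⟨σ, hσ⟩ := IsAlgClosed.exists_eq_mul_self (μ : ℂ)
  have k := fun σ' hk => fin s hs 1 σ' σ' hk 1 0 (-μ) (fun s hs => by rw [hμ s hs]; ring) (by simp)
    (by simp)
  by_cases hB' : 1 * (pd e0 (vort (W 0) (W 1)) (s, x₀) : ℂ) + σ * vort (W 0) (W 1) (s, x₀) = 0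
  · refine k (-σ) (fun e => hA ?_) (by push_cast; rw [hσ]; ring)
    exact_mod_cast
      (by linear_combination (e + hB') / 2 : (pd e0 (vort (W 0) (W 1)) (s, x₀) : ℂ) = 0)
  · exact k σ hB' (by push_cast; rw [hσ]; ring)

end Pool.Agent.MP_ed9623_an.H77
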