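import Pool.Agent.MP_ed9623_an.H77.SpecX

/-! Bounded complete solutions of a dissipative problem vanish. -/

open MeasureTheory Filter Topology Set
open scoped ContDiff InnerProductSpace

namespace Pool.Agent.MP_ed9623_an.H77

open H64

namespace Anc

theorem ode {E E' : ℝ → ℝ} (h : ∀ t, HasDerivAt E (E' t) t) {K C : ℝ} (hK : 0 < K)
    (h1 : ∀ t, K * E' t ≤ -E t) (h2 : ∀ t, E t ≤ C) (t : ℝ) : E t ≤ 0 := by
  have hd : ∀ r, HasDerivAt (fun r => Real.exp (r / K) * E r)
      (Real.exp (r / K) * (1 / K) * E r + Real.exp (r / K) * E' r) r := fun r =>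
    ((hasDerivAt_id' r).div_const K).exp.fun_mul (h r)
  have anti := antitone_of_deriv_nonpos (fun r => (hd r).differentiableAt) fun r => by
    rw [(hd r).deriv, mul_assoc, ← mul_add, show 1 / K * E r + E' r = (K * E' r + E r) / K by
      field_simp; ring]
    exact mul_nonpos_of_nonneg_of_nonpos (Real.exp_pos _).le
      (div_nonpos_of_nonpos_of_nonneg (by linarith [h1 r]) hK.le)
  have l := (Real.tendsto_exp_atBot.comp (tendsto_id.atBot_div_const hK)).mul_const C
  rw [zero_mul] at l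
  exact nonpos_of_mul_nonpos_right (ge_of_tendsto l ((eventually_le_atBot t).mono fun r hr =>
    (anti hr).trans (mul_le_mul_of_nonneg_left (h2 r) (Real.exp_pos _).le))) (Real.exp_pos _)

theorem abs {E F : Type} [NormedAddCommGroup E] [NormedSpace ℝ E] [NormedAddCommGroup F]
    [InnerProductSpace ℝ F] (T : Fin 2 → E →L[ℝ] F) {K R : ℝ} {w : ℝ → E} (hK : 0 < K)
    (hw : ContDiff ℝ ∞ w) (hR : ∀ t, ‖w t‖ ≤ R)
    (hd : Dense {t | K * ∑ j, ⟪T j (deriv w t), T j (w t)⟫_ℝ ≤ -∑ j, ⟪T j (w t), T j (w t)⟫_ℝ})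
    (t : ℝ) (j : Fin 2) : T j (w t) = 0 := by
  obtain ⟨d1, d2⟩ := contDiff_infty_iff_deriv.1 hw
  have c1 := hw.continuous
  have c2 := d2.continuous
  have h1 : ∀ t, K * ∑ j, ⟪T j (deriv w t), T j (w t)⟫_ℝ ≤ -∑ j, ⟪T j (w t), T j (w t)⟫_ℝ :=
    fun t => hd.induction (fun _ h => h) (isClosed_le (by fun_prop) (by fun_prop)) t
  have h2 : ∀ t j, HasDerivAt (fun t => T j (w t)) (T j (deriv w t)) t := fun t j =>
    (T j).hasFDerivAt.comp_hasDerivAt t (d1 t).hasDerivAt
  have h3 := ode (E := fun t => ∑ j, ⟪T j (w t), T j (w t)⟫_ℝ)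
    (E' := fun t => 2 * ∑ j, ⟪T j (deriv w t), T j (w t)⟫_ℝ) (fun t => by
      refine (HasDerivAt.fun_sum fun j _ => (h2 t j).inner ℝ (h2 t j)).congr_deriv ?_
      rw [Finset.mul_sum]
      exact Finset.sum_congr rfl fun j _ => by rw [real_inner_comm]; ring) (half_pos hK)
    (C := ∑ j, (‖T j‖ * R) ^ 2) (fun t => by linarith [h1 t]) (fun t => by
      refine Finset.sum_le_sum fun j _ => ?_
      rw [real_inner_self_eq_norm_sq]
      exact pow_le_pow_left₀ (norm_nonneg _) ((T j).le_opNorm_of_le (hR t)) 2) t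
  exact real_inner_self_nonpos.1 ((Finset.single_le_sum
    (f := fun j => ⟪T j (w t), T j (w t)⟫_ℝ) (fun _ _ => real_inner_self_nonneg)
    (Finset.mem_univ j)).trans h3)

end Anc

theorem rowAnc : OfAnc := by
  intro A K R w hA hK hw hR hd t j
  obtain ⟨T, hT⟩ : ∃ T : Fin 2 → E6 →L[ℝ] Lp ℝ 2 (volume.restrict A),
      ∀ j v, T j v =ᵐ[volume.restrict A] vl v j :=
    ⟨fun j => LpToLpRestrictCLM P ℝ ℝ volume 2 A ∘L PiLp.proj 2 (fun _ : Ix => L) (j, none),
      fun j v => LpToLpRestrictCLM_coeFn ℝ A _⟩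
  have e : ∀ u v : E6, ∫ x in A, ∑ j, vl u j x * vl v j x = ∑ j, ⟪T j u, T j v⟫_ℝ := fun u v => by
    rw [integral_finsetSum _ fun j _ => ((m2_vl u j).int_mul (m2_vl v j)).integrableOn]
    refine Finset.sum_congr rfl fun j _ => ?_
    rw [L2.inner_def]
    refine integral_congr_ae ?_
    filter_upwards [hT j u, hT j v] with x a b
    rw [a, b, real_inner_comm]
    simp
  have h := Anc.abs T hK hw hR (by simpa only [← e, mm, sq] using hd) t j
  have h' := hT j (w t)
  rw [h] at h'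
  exact (ae_restrict_iff' hA).1 (h'.symm.trans (Lp.coeFn_zero _ _ _))

end Pool.Agent.MP_ed9623_an.H77
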