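import Pool.Agent.MP_ed9623_an.H77.SpecX
import Pool.Agent.MP_ed9623_an.H67.Gp

/-! The dichotomy at an interior point of the inner circle. -/

open MeasureTheory Filter Topology Set
open scoped ContDiff

namespace Pool.Agent.MP_ed9623_an.H77

open H64

namespace HypP

variable {x τ c : P} {r : ℝ}

theorem xc0 (h1 : c.1 = x.1 - τ.2 * r) (p : P) :
    Xc c 0 (Th x τ (fun _ => 0) p) = τ.1 * p.1 - τ.2 * (p.2 - r) := by
  simp only [Xc, Th, Matrix.cons_val_zero, h1]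
  ring

theorem xc1 (h2 : c.2 = x.2 + τ.1 * r) (p : P) :
    Xc c 1 (Th x τ (fun _ => 0) p) = τ.2 * p.1 + τ.1 * (p.2 - r) := by
  simp only [Xc, Th, Matrix.cons_val_one, Matrix.cons_val_zero, h2]
  ring

theorem rd_eq (h1 : c.1 = x.1 - τ.2 * r) (h2 : c.2 = x.2 + τ.1 * r) (w : Fin 2 → P → ℝ) (p : P) :
    rd (0, r) (tv x τ (fun _ => 0) w) p = rd c w (Th x τ (fun _ => 0) p) := by
  simp only [rd, Fin.sum_univ_two, xc0 h1, xc1 h2]
  simp [tv, Rm, Xc]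
  ring

theorem ph_eq (hτ : τ.1 ^ 2 + τ.2 ^ 2 = 1) (h1 : c.1 = x.1 - τ.2 * r) (h2 : c.2 = x.2 + τ.1 * r)
    (w : Fin 2 → P → ℝ) (dw : Fin 2 → Fin 2 → P → ℝ) (p : P) :
    Ph (0, r) (tv x τ (fun _ => 0) w) (td x τ (fun _ => 0) dw) p =
      Ph c w dw (Th x τ (fun _ => 0) p) := by
  have : Ph (0, r) (tv x τ (fun _ => 0) w) (td x τ (fun _ => 0) dw) p =
      (τ.1 ^ 2 + τ.2 ^ 2) * Ph c w dw (Th x τ (fun _ => 0) p) := by
    simp only [Ph, Fin.sum_univ_two, xc0 h1, xc1 h2]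
    simp [tv, td, Rm, Xc]
    ring
  rw [this, hτ, one_mul]

theorem qp_eq (r : ℝ) : Qp (-r) r = Q r :=
  inter_eq_left.2 fun _ hp => (abs_lt.1 (mem_Q.1 hp).2).1

end HypP

open HypP

theorem rowHypP : OfHypP := by
  intro hTh hTr hI hL Ω c x r R₀ R a da w dw z dz hΩ hx r0 rR hq h ha hw
  obtain ⟨τ, hτ, h1, h2⟩ : ∃ τ : P, τ.1 ^ 2 + τ.2 ^ 2 = 1 ∧ c.1 = x.1 - τ.2 * r ∧
      c.2 = x.2 + τ.1 * r := by
    refine ⟨((c.2 - x.2) / r, (x.1 - c.1) / r), ?_, ?_, ?_⟩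
    · simp only [qc] at hq
      field_simp
      linear_combination hq
    · field_simp
      ring
    · field_simp
      ring
  have o : IsOpen (Th x τ (fun _ => 0) ⁻¹' (Ω ∩ {y | qc c y < R₀ ^ 2})) :=
    (hΩ.inter (isOpen_lt (sm_qc c).continuous continuous_const)).preimage
      (sm_Th Gam.zero x τ).continuous
  obtain ⟨s, s0, hs⟩ := Metric.isOpen_iff.1 o 0 (by
    rw [mem_preimage, Th_zero rfl]
    exact ⟨hx, hq.trans_lt (by nlinarith)⟩)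
  rw [← Q_eq_ball] at hs
  have hc : Ch Ω x τ (fun _ => 0) (-s) s := ⟨hτ, Gam.zero, s0, by linarith, rfl, fun p hp =>
    ⟨fun _ => (abs_lt.1 (mem_Q.1 hp).2).1, fun _ => (hs hp).1⟩⟩
  have low : Q s ∩ {p | p.2 < 0} ⊆ Th x τ (fun _ => 0) ⁻¹' An c r R₀ := fun p hp => by
    refine ⟨?_, (hs hp.1).2⟩
    have k : p.2 < 0 := hp.2
    rw [qc_eq, Fin.sum_univ_two, xc0 h1, xc1 h2]
    have e : (τ.1 * p.1 - τ.2 * (p.2 - r)) ^ 2 + (τ.2 * p.1 + τ.1 * (p.2 - r)) ^ 2 =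
        p.1 ^ 2 + (p.2 - r) ^ 2 := by linear_combination (p.1 ^ 2 + (p.2 - r) ^ 2) * hτ
    rw [e]
    nlinarith [sq_nonneg p.1, sq_nonneg p.2]
  obtain ⟨⟨va, vw, vz, -, -, -, nda, -, he⟩, ⟨f, p1⟩, g, p2⟩ := h
  obtain ⟨t1, t2, t3, t4, -, t6⟩ := hTr x τ _ hτ Gam.zero
  obtain ⟨m1, m2, -⟩ := hTh x τ _ hτ Gam.zero
  obtain ⟨i1, -⟩ := hI Ω a w z da dw dz hΩ va vw vz nda he
  have q1 := Gp.p2_chart hTh hTr hc p1
  have q2 := Gp.p2_chart hTh hTr hc p2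
  rw [qp_eq] at q1 q2
  have k := hL s r (4 * R) (tv x τ (fun _ => 0) a) (tv x τ (fun _ => 0) w) (tv x τ (fun _ => 0) z)
    (tv x τ (fun _ => 0) f) (tv x τ (fun _ => 0) g) (td x τ (fun _ => 0) da)
    (td x τ (fun _ => 0) dw) (td x τ (fun _ => 0) dz) s0 r0 (t2 _ _ va).1 (t2 _ _ vw).1
    (t2 _ _ vz).1
    (by
      convert q1 using 1
      · funext j p
        simp only [tv, mul_add, Finset.sum_add_distrib]
      · funext j i p
        simp only [td, mul_add, Finset.sum_add_distrib])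
    (by
      convert q2 using 1
      · funext j p
        simp only [tv, mul_sub, Finset.sum_sub_distrib]
      · funext j i p
        simp only [td, mul_sub, Finset.sum_sub_distrib])
    (fun ζ hζ => by
      obtain ⟨k1, k2, k3⟩ := t6 ζ fun j => (hζ j).top
      rw [E1, k1 z fun j => (vz.h1 j).m, k2 dw fun j => (vw.h1 j).md,
        k3 a w (fun j => (va.h1 j).m) fun j => (vw.h1 j).m,
        k3 w a (fun j => (vw.h1 j).m) fun j => (va.h1 j).m]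
      refine he _ fun j => ((t4 _ ζ hζ).1 j).mono fun q hq => ?_
      rw [← Th_Thi (x := x) (γ := fun _ => 0) hτ q]
      exact (hs hq).1)
    ((m1.quasiMeasurePreserving.ae i1).mono fun p hp => (t3 da dw p).trans hp)
    (fun j => (((t1 a).2 _).1 ha j).mono low)
    ((m1.quasiMeasurePreserving.ae hw).mono fun p hp hq => (rd_eq h1 h2 w p).trans (hp (low hq)))
  rcases k with ⟨r', r1, hv⟩ | k
  · obtain ⟨ε, ε0, hε⟩ := Metric.mem_nhds_iff.1 (hc.nhds r1).2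
    exact Or.inl ⟨ε, ε0, fun j => (((t1 a).2 _).2 hv j).mono hε⟩
  · refine Or.inr fun δ hδ => ?_
    obtain ⟨η, η0, hη⟩ := k δ hδ
    obtain ⟨ε, ε0, hε⟩ := Metric.mem_nhds_iff.1 (hc.nhds η0).2
    refine ⟨ε, ε0, (m2.quasiMeasurePreserving.ae hη).mono fun q hq hb => ?_⟩
    have := hq (hε hb)
    rwa [ph_eq hτ h1 h2, Th_Thi hτ] at this

end Pool.Agent.MP_ed9623_an.H77
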