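import Pool.Agent.MP_ed9623_an.H77.SpecA

/-! Opposite bounded solutions vanish. -/

open Filter Topology Set
open scoped InnerProductSpace

namespace Pool.Agent.MP_ed9623_an.H77

namespace Dec

theorem anti {f f' : ℝ → ℝ} (h : ∀ t, HasDerivAt f (f' t) t) (h' : ∀ t, t < -1 → f' t ≤ 0) {s : ℝ}
    (hs : s ≤ -1) : f (-1) ≤ f s :=
  antitoneOn_of_deriv_nonpos (convex_Iic (-1))
    (fun t _ => (h t).continuousAt.continuousWithinAt)
    (fun t _ => (h t).differentiableAt.differentiableWithinAt)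
    (fun t ht => by rw [(h t).deriv]; exact h' t (by simpa using ht)) hs self_mem_Iic hs

theorem anti' {f f' : ℝ → ℝ} (h : ∀ t, HasDerivAt f (f' t) t) (h' : ∀ t, t < -1 → f' t ≤ 0)
    {s : ℝ} (hs : s < -1) : f (-1) ≤ f s := anti h h' hs.le

end Dec

theorem rowDec : OfDec := by
  intro H V _ _ _ _ _ _ S R U W hU hW h
  have hd : ∀ t, HasDerivAt U (deriv U t) t := fun t => hU.1.hasDerivAt isOpen_univ (mem_univ t)
  have hWU : ∀ t, t < 0 → W t = -U t := fun t ht => eq_neg_of_add_eq_zero_right (h t ht)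
  have h1 : ∀ t, t < 0 → adj S.ι (S.ι (deriv U t)) = -S.A (U t) := fun t ht => by
    have e : W =ᶠ[𝓝 t] fun r => -U r := (Iio_mem_nhds ht : Iio 0 ∈ 𝓝 t) |> fun a =>
      mem_of_superset a fun r hr => hWU r hr
    have a1 := hU.1.2 t (mem_univ t)
    have a2 := hW.1.2 t (mem_univ t)
    rw [e.deriv_eq, (hd t).fun_neg.deriv, hWU t ht] at a2
    simp only [St.G, map_neg, ContinuousLinearMap.neg_apply, neg_neg] at a1 a2
    have a3 : (2 : ℝ) • adj S.ι (S.ι (deriv U t)) = (2 : ℝ) • -S.A (U t) := by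
      rw [two_smul, two_smul]
      nth_rewrite 1 [a1]
      rw [neg_eq_iff_eq_neg.1 a2]
      abel
    exact smul_right_injective V two_ne_zero a3
  have h2 : ∀ t, HasDerivAt (fun t => ‖S.ι (U t)‖ ^ 2)
      (2 * ⟪S.ι (U t), S.ι (deriv U t)⟫_ℝ) t := fun t =>
    (S.ι.hasFDerivAt.comp_hasDerivAt t (hd t)).norm_sq
  have h3 : ∀ t, t < -1 → 2 * ⟪S.ι (U t), S.ι (deriv U t)⟫_ℝ ≤ -(2 * S.c * ‖U t‖ ^ 2) :=
    fun t ht => by
      rw [real_inner_comm, ← adj_inner, h1 t (by linarith), inner_neg_left]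
      linarith [S.coer (U t)]
  have hc := S.c0
  have h4 : ∀ s, s < -1 → ‖S.ι (U (-1))‖ ^ 2 ≤ ‖S.ι (U s)‖ ^ 2 := fun s hs =>
    Dec.anti' h2 (fun t ht => (h3 t ht).trans (neg_nonpos.2 (by positivity))) hs
  have h5 : ∀ s, ‖S.ι (U s)‖ ^ 2 ≤ ‖S.ι‖ ^ 2 * ‖U s‖ ^ 2 := fun s => by
    rw [← mul_pow]
    exact pow_le_pow_left₀ (norm_nonneg _) (S.ι.le_opNorm _) 2
  set e := ‖S.ι (U (-1))‖ ^ 2 with he
  have h6 : e ≤ 0 := by
    by_contra h0
    push Not at h0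
    have h7 : ∀ s, s ≤ -1 → ‖S.ι‖ ^ 2 * e + 2 * S.c * e * (-1) ≤
        ‖S.ι‖ ^ 2 * ‖S.ι (U s)‖ ^ 2 + 2 * S.c * e * s := fun s hs =>
      Dec.anti (f := fun t => ‖S.ι‖ ^ 2 * ‖S.ι (U t)‖ ^ 2 + 2 * S.c * e * t)
        (fun t => ((h2 t).const_mul _).add ((hasDerivAt_id' t).const_mul _)) (fun t ht => by
          have a1 := mul_le_mul_of_nonneg_left (h3 t ht) (sq_nonneg ‖S.ι‖)
          have a2 := mul_le_mul_of_nonneg_left ((h4 t ht).trans (h5 t)) hc.le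
          nlinarith) hs
    have hp : 0 < 2 * S.c * e := by positivity
    set M := ‖S.ι‖ ^ 2 * (‖S.ι‖ ^ 2 * R ^ 2) with hM
    have hM0 : 0 ≤ M / (2 * S.c * e) := by positivity
    have a1 := h7 (-2 - M / (2 * S.c * e)) (by linarith)
    have a2 := (h5 (-2 - M / (2 * S.c * e))).trans (mul_le_mul_of_nonneg_left
      (pow_le_pow_left₀ (norm_nonneg _) (hU.2 _ (mem_univ _)).1 2) (sq_nonneg _))
    have a3 := mul_le_mul_of_nonneg_left a2 (sq_nonneg ‖S.ι‖)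
    have a4 : 2 * S.c * e * (-2 - M / (2 * S.c * e)) = -(4 * S.c * e) - M := by
      field_simp
      ring
    have a5 : 0 ≤ ‖S.ι‖ ^ 2 * e := by positivity
    rw [a4] at a1
    linarith
  have h8 : U (-1) = 0 := S.inj (by
    rw [map_zero, ← norm_eq_zero, ← sq_eq_zero_iff]
    exact le_antisymm h6 (sq_nonneg _))
  rw [hWU _ (by norm_num), h8, neg_zero]

end Pool.Agent.MP_ed9623_an.H77
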